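import Pool.Agent.helper17.CH.SpecW

/-!
# Project CH (MP_5628fe_nt), row ch:BD

The difference between a window function and its Gaussian smoothing of width `N^(-1-ε)` is small in mean.
-/

set_option autoImplicit false

namespace Pool.Agent.CH

open Finset MeasureTheory

private lemma BD_side (r v w b : ℝ) (hb : r ≤ |v - b|) (hw : |v - w| < r) : b < v ↔ b < w := by
  have h1 := abs_lt.1 hw
  constructor
  · intro h
    rw [abs_of_pos (by linarith)] at hb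
    linarith [h1.1, h1.2]
  · intro h
    by_contra hc
    rw [abs_of_nonpos (by linarith)] at hb
    linarith [h1.1, h1.2]

private lemma BD_const (N : ℕ) (c : ℕ → ℝ) (r v w : ℝ)
    (hv : ∀ n ∈ Icc N (2 * N), r ≤ |v - 3 * Real.log n|) (hw : |v - w| < r) :
    CC N c v = CC N c w := by
  unfold CC
  refine Finset.sum_congr rfl fun n hn => ?_
  rw [Finset.mem_Ico] at hn
  have h1 := hv n (Finset.mem_Icc.2 ⟨hn.1, by omega⟩)
  have h2 := hv (n + 1) (Finset.mem_Icc.2 ⟨by omega, by omega⟩)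
  push_cast at h2
  have e1 := BD_side r v w _ h1 hw
  have e2 := BD_side r v w _ h2 hw
  have e : v ∈ Set.Ioc (3 * Real.log n) (3 * Real.log ((n : ℝ) + 1)) ↔
      w ∈ Set.Ioc (3 * Real.log n) (3 * Real.log ((n : ℝ) + 1)) := by
    simp only [Set.mem_Ioc]
    rw [e1, ← not_lt, e2, not_lt]
  by_cases h : v ∈ Set.Ioc (3 * Real.log n) (3 * Real.log ((n : ℝ) + 1))
  · rw [Set.indicator_of_mem h, Set.indicator_of_mem (e.1 h)]
  · rw [Set.indicator_of_notMem h, Set.indicator_of_notMem (fun hh => h (e.2 hh))]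

private lemma BD_gauss (s : ℝ) (hs : 0 < s) (v : ℝ) :
    Integrable (fun w : ℝ => Real.exp (-((v - w) ^ 2) / s)) ∧
      ∫ w : ℝ, Real.exp (-((v - w) ^ 2) / s) = √(Real.pi * s) := by
  have e : ∀ u : ℝ, Real.exp (-(u ^ 2) / s) = Real.exp (-(1 / s) * u ^ 2) := by
    intro u
    congr 1
    field_simp
  have h := integrable_exp_neg_mul_sq (b := 1 / s) (by positivity)
  have h2 := integral_gaussian (1 / s)
  have h1 : Integrable (fun u : ℝ => Real.exp (-(u ^ 2) / s)) := by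
    simp only [e]
    exact h
  constructor
  · exact h1.comp_sub_left v
  · have h3 := integral_sub_left_eq_self (fun u : ℝ => Real.exp (-(u ^ 2) / s)) volume v
    rw [h3]
    simp only [e]
    rw [h2]
    congr 1
    field_simp

private lemma BD_ph (δ : ℝ) (hδ : 0 < δ) (v : ℝ) :
    Integrable (fun w : ℝ => ph δ (v - w)) ∧ ∫ w : ℝ, ph δ (v - w) = 1 := by
  obtain ⟨h1, h2⟩ := BD_gauss (2 * δ ^ 2) (by positivity) v
  unfold ph
  refine ⟨h1.div_const _, ?_⟩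
  rw [integral_div, h2]
  have e : √(Real.pi * (2 * δ ^ 2)) = δ * √(2 * Real.pi) := by
    rw [show Real.pi * (2 * δ ^ 2) = δ ^ 2 * (2 * Real.pi) by ring, Real.sqrt_mul (by positivity),
      Real.sqrt_sq hδ.le]
  rw [e, div_self]
  have := Real.pi_pos
  positivity

/-- the pointwise bound -/
private lemma BD_point (N : ℕ) (c : ℕ → ℝ) (δ r v : ℝ) (hδ : 0 < δ) (hr : 0 < r)
    (hI : Integrable (CC N c)) (hb : ∀ u, |CC N c u| ≤ 1)
    (hv : ∀ n ∈ Icc N (2 * N), r ≤ |v - 3 * Real.log n|) :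
    |CC N c v - Ph N c δ v| ≤ 4 * Real.exp (-(r ^ 2) / (4 * δ ^ 2)) := by
  obtain ⟨p1, p2⟩ := BD_ph δ hδ v
  obtain ⟨g1, g2⟩ := BD_gauss (4 * δ ^ 2) (by positivity) v
  have hpi := Real.pi_pos
  have hs : 0 < δ * √(2 * Real.pi) := by positivity
  have hmul : Integrable (fun w : ℝ => CC N c w * ph δ (v - w)) :=
    p1.bdd_mul (c := 1) hI.aestronglyMeasurable (Filter.Eventually.of_forall fun w => hb w)
  have hconst : Integrable (fun w : ℝ => CC N c v * ph δ (v - w)) := p1.const_mul _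
  have heq : CC N c v - Ph N c δ v = ∫ w : ℝ, (CC N c v - CC N c w) * ph δ (v - w) := by
    have : ∫ w : ℝ, (CC N c v - CC N c w) * ph δ (v - w) =
        ∫ w : ℝ, (CC N c v * ph δ (v - w) - CC N c w * ph δ (v - w)) := by
      congr 1
      funext w
      ring
    rw [this, integral_sub hconst hmul, integral_const_mul, p2, mul_one]
    rfl
  have hE : 0 < Real.exp (-(r ^ 2) / (4 * δ ^ 2)) := Real.exp_pos _
  have hbd : ∀ w : ℝ, ‖(CC N c v - CC N c w) * ph δ (v - w)‖ ≤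
      2 * Real.exp (-(r ^ 2) / (4 * δ ^ 2)) / (δ * √(2 * Real.pi)) *
        Real.exp (-((v - w) ^ 2) / (4 * δ ^ 2)) := by
    intro w
    by_cases hw : |v - w| < r
    · rw [BD_const N c r v w hv hw, sub_self, zero_mul, norm_zero]
      positivity
    · rw [not_lt] at hw
      rw [norm_mul, Real.norm_eq_abs, Real.norm_eq_abs]
      have h1 : |CC N c v - CC N c w| ≤ 2 := by
        have := abs_sub (CC N c v) (CC N c w)
        linarith [hb v, hb w]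
      have h2 : |ph δ (v - w)| = Real.exp (-((v - w) ^ 2) / (2 * δ ^ 2)) / (δ * √(2 * Real.pi)) := by
        unfold ph
        rw [abs_of_pos (by positivity)]
      have h3 : Real.exp (-((v - w) ^ 2) / (2 * δ ^ 2)) ≤
          Real.exp (-(r ^ 2) / (4 * δ ^ 2)) * Real.exp (-((v - w) ^ 2) / (4 * δ ^ 2)) := by
        rw [← Real.exp_add]
        apply Real.exp_le_exp.2
        have h4 : r ^ 2 ≤ (v - w) ^ 2 := by
          rw [← sq_abs (v - w)]
          exact pow_le_pow_left₀ hr.le hw 2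
        have h5 : -((v - w) ^ 2) / (2 * δ ^ 2) =
            -((v - w) ^ 2) / (4 * δ ^ 2) + -((v - w) ^ 2) / (4 * δ ^ 2) := by
          field_simp
          ring
        rw [h5]
        have h6 : -((v - w) ^ 2) / (4 * δ ^ 2) ≤ -(r ^ 2) / (4 * δ ^ 2) := by
          apply div_le_div_of_nonneg_right _ (by positivity)
          linarith
        linarith
      rw [h2]
      calc |CC N c v - CC N c w| * (Real.exp (-((v - w) ^ 2) / (2 * δ ^ 2)) / (δ * √(2 * Real.pi)))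
          ≤ 2 * ((Real.exp (-(r ^ 2) / (4 * δ ^ 2)) * Real.exp (-((v - w) ^ 2) / (4 * δ ^ 2))) /
              (δ * √(2 * Real.pi))) := by
            apply mul_le_mul h1 _ (by positivity) (by norm_num)
            exact div_le_div_of_nonneg_right h3 hs.le
        _ = _ := by ring
  rw [heq]
  have h7 := norm_integral_le_of_norm_le (g1.const_mul
    (2 * Real.exp (-(r ^ 2) / (4 * δ ^ 2)) / (δ * √(2 * Real.pi))))
    (Filter.Eventually.of_forall hbd)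
  rw [integral_const_mul, g2, Real.norm_eq_abs] at h7
  refine h7.trans ?_
  have e : √(Real.pi * (4 * δ ^ 2)) = √2 * (δ * √(2 * Real.pi)) := by
    rw [show Real.pi * (4 * δ ^ 2) = 2 * (δ ^ 2 * (2 * Real.pi)) by ring,
      Real.sqrt_mul (by norm_num), Real.sqrt_mul (by positivity), Real.sqrt_sq hδ.le]
  have e2 : 2 * Real.exp (-(r ^ 2) / (4 * δ ^ 2)) / (δ * √(2 * Real.pi)) * √(Real.pi * (4 * δ ^ 2)) =
      2 * √2 * Real.exp (-(r ^ 2) / (4 * δ ^ 2)) := by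
    rw [e]
    field_simp
  rw [e2]
  have h8 : √2 ≤ 2 := by
    rw [Real.sqrt_le_left (by norm_num)]
    norm_num
  nlinarith [hE, h8]

/-- a `j` close to a cube -/
private lemma BD_near (N n j : ℕ) (r : ℝ) (hN : 1 ≤ N) (hr : 0 < r) (hn : n ∈ Icc N (2 * N))
    (hj : j ∈ Ioc 0 (64 * N ^ 3)) (h : |Real.log j - 3 * Real.log n| < r) :
    |(j : ℝ) - (n : ℝ) ^ 3| ≤ 64 * r * (N : ℝ) ^ 3 := by
  rw [Finset.mem_Icc] at hn
  rw [Finset.mem_Ioc] at hj
  have hj0 : (0 : ℝ) < j := by exact_mod_cast hj.1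
  have hjN : (j : ℝ) ≤ 64 * (N : ℝ) ^ 3 := by exact_mod_cast hj.2
  have hn0 : (0 : ℝ) < n := by
    have : 0 < n := by omega
    exact_mod_cast this
  have hn3 : (n : ℝ) ^ 3 ≤ 8 * (N : ℝ) ^ 3 := by
    have h2 : (n : ℝ) ≤ 2 * (N : ℝ) := by exact_mod_cast hn.2
    calc (n : ℝ) ^ 3 ≤ (2 * (N : ℝ)) ^ 3 := pow_le_pow_left₀ hn0.le h2 3
      _ = 8 * (N : ℝ) ^ 3 := by ring
  have hN0 : (0 : ℝ) < (N : ℝ) ^ 3 := by positivity
  have hn30 : (0 : ℝ) < (n : ℝ) ^ 3 := by positivity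
  have e3 : 3 * Real.log n = Real.log ((n : ℝ) ^ 3) := by
    rw [Real.log_pow]
    norm_num
  rw [e3] at h
  have h1 := abs_lt.1 h
  rw [abs_le]
  constructor
  · -- n³ - j ≤ ...
    have h2 := Real.one_sub_inv_le_log_of_pos (x := (n : ℝ) ^ 3 / j) (by positivity)
    rw [Real.log_div hn30.ne' hj0.ne', inv_div] at h2
    have h3 : 1 - (j : ℝ) / (n : ℝ) ^ 3 ≤ r := by linarith [h1.1]
    have h4 : (n : ℝ) ^ 3 - j ≤ r * (n : ℝ) ^ 3 := by
      have : (1 - (j : ℝ) / (n : ℝ) ^ 3) * (n : ℝ) ^ 3 ≤ r * (n : ℝ) ^ 3 :=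
        mul_le_mul_of_nonneg_right h3 hn30.le
      have e : (1 - (j : ℝ) / (n : ℝ) ^ 3) * (n : ℝ) ^ 3 = (n : ℝ) ^ 3 - j := by
        field_simp
      linarith
    nlinarith [mul_le_mul_of_nonneg_left hn3 hr.le, mul_pos hr hN0]
  · have h2 := Real.one_sub_inv_le_log_of_pos (x := (j : ℝ) / (n : ℝ) ^ 3) (by positivity)
    rw [Real.log_div hj0.ne' hn30.ne', inv_div] at h2
    have h3 : 1 - (n : ℝ) ^ 3 / (j : ℝ) ≤ r := by linarith [h1.2]
    have h4 : (j : ℝ) - (n : ℝ) ^ 3 ≤ r * j := by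
      have : (1 - (n : ℝ) ^ 3 / (j : ℝ)) * j ≤ r * j :=
        mul_le_mul_of_nonneg_right h3 hj0.le
      have e : (1 - (n : ℝ) ^ 3 / (j : ℝ)) * j = j - (n : ℝ) ^ 3 := by
        field_simp
      linarith
    nlinarith [mul_le_mul_of_nonneg_left hjN hr.le]

private lemma BD_count1 (a : ℕ) (h : ℝ) (hh : 0 ≤ h) (S : Finset ℕ)
    (hS : ∀ j ∈ S, |(j : ℝ) - a| ≤ h) : (#S : ℝ) ≤ 2 * h + 1 := by
  have hsub : S ⊆ Icc (a - ⌊h⌋₊) (a + ⌊h⌋₊) := by
    intro j hj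
    have h1 := hS j hj
    rw [Finset.mem_Icc]
    rcases le_total j a with hja | hja
    · have h2 : ((a - j : ℕ) : ℝ) ≤ h := by
        rw [Nat.cast_sub hja]
        have := abs_le.1 h1
        linarith [this.1]
      have h3 := Nat.le_floor h2
      omega
    · have h2 : ((j - a : ℕ) : ℝ) ≤ h := by
        rw [Nat.cast_sub hja]
        have := abs_le.1 h1
        linarith [this.2]
      have h3 := Nat.le_floor h2
      omega
  have h1 := Finset.card_le_card hsub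
  rw [Nat.card_Icc] at h1
  have h2 : #S ≤ 2 * ⌊h⌋₊ + 1 := by omega
  have h3 : (#S : ℝ) ≤ 2 * (⌊h⌋₊ : ℝ) + 1 := by exact_mod_cast h2
  linarith [Nat.floor_le hh]

private lemma BD_count (N : ℕ) (r : ℝ) (hN : 1 ≤ N) (hr : 0 < r) (S : Finset ℕ)
    (hS : ∀ j ∈ S, j ∈ Ioc 0 (64 * N ^ 3) ∧ ∃ n ∈ Icc N (2 * N), |Real.log j - 3 * Real.log n| < r) :
    (#S : ℝ) ≤ 256 * r * (N : ℝ) ^ 4 + 2 * N := by
  classical
  have hN1 : (1 : ℝ) ≤ N := by exact_mod_cast hN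
  have hsub : S ⊆ (Icc N (2 * N)).biUnion
      (fun n => S.filter fun j : ℕ => |Real.log j - 3 * Real.log n| < r) := by
    intro j hj
    obtain ⟨n, hn, h⟩ := (hS j hj).2
    rw [Finset.mem_biUnion]
    exact ⟨n, hn, Finset.mem_filter.2 ⟨hj, h⟩⟩
  have h1 : #S ≤ ∑ n ∈ Icc N (2 * N), #(S.filter fun j : ℕ => |Real.log j - 3 * Real.log n| < r) :=
    (Finset.card_le_card hsub).trans Finset.card_biUnion_le
  have h2 : (#S : ℝ) ≤ ∑ n ∈ Icc N (2 * N),
      (#(S.filter fun j : ℕ => |Real.log j - 3 * Real.log n| < r) : ℝ) := by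
    exact_mod_cast h1
  have h3 : ∀ n ∈ Icc N (2 * N), (#(S.filter fun j : ℕ => |Real.log j - 3 * Real.log n| < r) : ℝ) ≤
      2 * (64 * r * (N : ℝ) ^ 3) + 1 := by
    intro n hn
    refine BD_count1 (n ^ 3) _ (by positivity) _ fun j hj => ?_
    rw [Finset.mem_filter] at hj
    have := BD_near N n j r hN hr hn (hS j hj.1).1 hj.2
    push_cast
    exact this
  refine h2.trans ((Finset.sum_le_sum h3).trans ?_)
  rw [Finset.sum_const, Nat.card_Icc, nsmul_eq_mul]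
  have h4 : ((2 * N + 1 - N : ℕ) : ℝ) = N + 1 := by
    rw [show 2 * N + 1 - N = N + 1 by omega]
    push_cast
    ring
  rw [h4]
  have h5 : (0 : ℝ) ≤ 2 * (64 * r * (N : ℝ) ^ 3) + 1 := by positivity
  calc ((N : ℝ) + 1) * (2 * (64 * r * (N : ℝ) ^ 3) + 1)
      ≤ (2 * N) * (2 * (64 * r * (N : ℝ) ^ 3) + 1) :=
        mul_le_mul_of_nonneg_right (by linarith) h5
    _ = 256 * r * (N : ℝ) ^ 4 + 2 * N := by ring

theorem BD (hCCB : CCB_stmt) : BD_stmt := by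
  obtain ⟨c1, c2, c3, -, -, -⟩ := hCCB
  intro ε hε hε1
  refine ⟨⌈(4096 : ℝ) ^ (4 / ε)⌉₊, fun N hN c hc F₀ f hf => ?_⟩
  classical
  have hbase : (4096 : ℝ) ^ (4 / ε) ≤ N := (Nat.le_ceil _).trans (by exact_mod_cast hN)
  have hbig : (1 : ℝ) ≤ (4096 : ℝ) ^ (4 / ε) := Real.one_le_rpow (by norm_num) (by positivity)
  have hN1 : (1 : ℝ) ≤ N := hbig.trans hbase
  have hN0 : (0 : ℝ) < N := by linarith
  have hNn : 1 ≤ N := by exact_mod_cast hN1
  obtain ⟨Y, hY⟩ : ∃ Y : ℝ, Y = (N : ℝ) ^ (ε / 4) := ⟨_, rfl⟩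
  have hY0 : 0 < Y := by
    rw [hY]
    positivity
  have hY1 : 4096 ≤ Y := by
    have h1 : ((4096 : ℝ) ^ (4 / ε)) ^ (ε / 4) ≤ (N : ℝ) ^ (ε / 4) :=
      Real.rpow_le_rpow (by positivity) hbase (by positivity)
    rw [← Real.rpow_mul (by norm_num)] at h1
    have h2 : 4 / ε * (ε / 4) = 1 := by field_simp
    rw [h2, Real.rpow_one] at h1
    rw [hY]
    exact h1
  have hY4 : Y ^ 4 = (N : ℝ) ^ ε := by
    rw [hY, ← Real.rpow_natCast, ← Real.rpow_mul hN0.le]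
    congr 1
    push_cast
    ring
  have hYN : Y ^ 4 ≤ N := by
    rw [hY4]
    calc (N : ℝ) ^ ε ≤ (N : ℝ) ^ (1 : ℝ) := Real.rpow_le_rpow_of_exponent_le hN1 hε1
      _ = N := Real.rpow_one _
  obtain ⟨δ, hδ⟩ : ∃ δ : ℝ, δ = de ε N := ⟨_, rfl⟩
  have hδe : δ = 1 / (N * Y ^ 4) := by
    rw [hδ, hY4]
    unfold de
    rw [Real.rpow_neg hN0.le, Real.rpow_add hN0, Real.rpow_one, one_div]
  have hδ0 : 0 < δ := by
    rw [hδe]
    positivity
  have hpow : (N : ℝ) ^ (3 - ε / 2) = (N : ℝ) ^ 3 / Y ^ 2 := by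
    rw [Real.rpow_sub hN0]
    congr 1
    · rw [show (3 : ℝ) = ((3 : ℕ) : ℝ) by norm_num, Real.rpow_natCast]
    · rw [hY, ← Real.rpow_natCast, ← Real.rpow_mul hN0.le]
      congr 1
      push_cast
      ring
  rw [← hδ, hpow]
  obtain ⟨r, hr⟩ : ∃ r : ℝ, r = 1 / (N * Y ^ 3) := ⟨_, rfl⟩
  have hr0 : 0 < r := by
    rw [hr]
    positivity
  obtain ⟨hb, -, hI⟩ := c2 N c hc
  have hF0 : 0 ≤ F₀ := (norm_nonneg _).trans (hf 0)
  -- the two kinds of `j`
  obtain ⟨J, hJ⟩ : ∃ J : Finset ℕ, J = Ioc 0 (64 * N ^ 3) := ⟨_, rfl⟩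
  rw [← hJ]
  obtain ⟨E, hE⟩ : ∃ E : ℝ, E = 4 * Real.exp (-(r ^ 2) / (4 * δ ^ 2)) := ⟨_, rfl⟩
  have hE0 : 0 ≤ E := by
    rw [hE]
    positivity
  obtain ⟨P, hP⟩ : ∃ P : ℕ → Prop, ∀ j, P j ↔ ∃ n ∈ Icc N (2 * N), |Real.log j - 3 * Real.log n| < r :=
    ⟨_, fun _ => Iff.rfl⟩
  have hterm : ∀ j ∈ J, ‖f j * ((cc N c j - Ph N c δ (Real.log j) : ℝ) : ℂ)‖ ≤
      (if P j then 2 * F₀ else 0) + F₀ * E := by
    intro j hj
    rw [hJ, Finset.mem_Ioc] at hj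
    have hcc := c1 N c j (by omega)
    rw [norm_mul, Complex.norm_real, Real.norm_eq_abs, hcc]
    split_ifs with h
    · have h1 : |CC N c (Real.log j) - Ph N c δ (Real.log j)| ≤ 2 := by
        have := abs_sub (CC N c (Real.log j)) (Ph N c δ (Real.log j))
        linarith [hb (Real.log j), c3 N c δ (Real.log j) hδ0 hc]
      have h2 : ‖f j‖ * |CC N c (Real.log j) - Ph N c δ (Real.log j)| ≤ F₀ * 2 :=
        mul_le_mul (hf j) h1 (abs_nonneg _) hF0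
      nlinarith [mul_nonneg hF0 hE0]
    · have h0 : ∀ n ∈ Icc N (2 * N), r ≤ |Real.log j - 3 * Real.log n| := by
        intro n hn
        by_contra hcn
        rw [not_le] at hcn
        exact h ((hP j).2 ⟨n, hn, hcn⟩)
      have h1 := BD_point N c δ r (Real.log j) hδ0 hr0 hI hb h0
      rw [← hE] at h1
      rw [zero_add]
      exact mul_le_mul (hf j) h1 (abs_nonneg _) hF0
  refine (norm_sum_le _ _).trans ((Finset.sum_le_sum hterm).trans ?_)
  rw [Finset.sum_add_distrib, ← Finset.sum_filter, Finset.sum_const, Finset.sum_const, nsmul_eq_mul,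
    nsmul_eq_mul]
  have hcard : (#(J.filter fun j : ℕ => P j) : ℝ) ≤ 256 * r * (N : ℝ) ^ 4 + 2 * N := by
    refine BD_count N r hNn hr0 _ fun j hj => ?_
    rw [Finset.mem_filter, hJ, hP] at hj
    exact hj
  have hJc : (#J : ℝ) = 64 * (N : ℝ) ^ 3 := by
    rw [hJ, Nat.card_Ioc]
    push_cast
    simp
  rw [hJc]
  -- the exponential
  have hexp : E ≤ 128 / Y ^ 4 := by
    have h1 : -(r ^ 2) / (4 * δ ^ 2) = -(Y ^ 2 / 4) := by
      rw [hr, hδe]
      field_simp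
    rw [hE, h1, Real.exp_neg]
    have h2 : (Y ^ 2 / 4) ^ 2 / 2 ≤ Real.exp (Y ^ 2 / 4) := by
      have := Real.quadratic_le_exp_of_nonneg (x := Y ^ 2 / 4) (by positivity)
      have h3 : 0 ≤ Y ^ 2 / 4 := by positivity
      linarith
    have h4 : (Real.exp (Y ^ 2 / 4))⁻¹ ≤ ((Y ^ 2 / 4) ^ 2 / 2)⁻¹ := by
      apply inv_anti₀ (by positivity) h2
    calc 4 * (Real.exp (Y ^ 2 / 4))⁻¹ ≤ 4 * ((Y ^ 2 / 4) ^ 2 / 2)⁻¹ := by linarith
      _ = 128 / Y ^ 4 := by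
        field_simp
        norm_num
  have hN3 : (0 : ℝ) < (N : ℝ) ^ 3 := by positivity
  have t1 : (256 * r * (N : ℝ) ^ 4 + 2 * N) * (2 * F₀) ≤
      (512 * (N : ℝ) ^ 3 / Y ^ 3 + 4 * N) * F₀ := by
    have : 256 * r * (N : ℝ) ^ 4 = 256 * (N : ℝ) ^ 3 / Y ^ 3 := by
      rw [hr]
      field_simp
    rw [this]
    apply le_of_eq
    ring
  have t2 : 64 * (N : ℝ) ^ 3 * (F₀ * E) ≤ 64 * (N : ℝ) ^ 3 * (128 / Y ^ 4) * F₀ := by
    have h1 : F₀ * E ≤ F₀ * (128 / Y ^ 4) := mul_le_mul_of_nonneg_left hexp hF0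
    have h2 := mul_le_mul_of_nonneg_left h1 (by positivity : (0 : ℝ) ≤ 64 * (N : ℝ) ^ 3)
    linarith
  have t3 := mul_le_mul_of_nonneg_right hcard (by positivity : (0 : ℝ) ≤ 2 * F₀)
  have u1 : 512 * (N : ℝ) ^ 3 / Y ^ 3 ≤ (N : ℝ) ^ 3 / Y ^ 2 / 8 := by
    rw [div_div, div_le_div_iff₀ (by positivity) (by positivity)]
    have : 512 * (Y ^ 2 * 8) ≤ Y ^ 3 := by
      have h1 : 0 ≤ Y ^ 2 * (Y - 4096) := by
        apply mul_nonneg (by positivity)
        linarith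
      nlinarith
    nlinarith [mul_le_mul_of_nonneg_left this hN3.le]
  have u2 : 4 * (N : ℝ) ≤ (N : ℝ) ^ 3 / Y ^ 2 / 4 := by
    rw [div_div, le_div_iff₀ (by positivity)]
    have h1 : 16 * Y ^ 2 ≤ Y ^ 4 := by
      have : 0 ≤ Y ^ 2 * (Y ^ 2 - 16) := by
        apply mul_nonneg (by positivity)
        nlinarith
      nlinarith
    have h2 : (N : ℝ) ≤ (N : ℝ) ^ 2 := by nlinarith
    have h3 : 16 * Y ^ 2 ≤ (N : ℝ) ^ 2 := by linarith
    nlinarith [mul_le_mul_of_nonneg_left h3 hN0.le]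
  have u3 : 64 * (N : ℝ) ^ 3 * (128 / Y ^ 4) ≤ (N : ℝ) ^ 3 / Y ^ 2 / 4 := by
    have e : 64 * (N : ℝ) ^ 3 * (128 / Y ^ 4) = 8192 * (N : ℝ) ^ 3 / Y ^ 4 := by ring
    rw [e, div_div, div_le_div_iff₀ (by positivity) (by positivity)]
    have h1 : 8192 * (Y ^ 2 * 4) ≤ Y ^ 4 := by
      have : 0 ≤ Y ^ 2 * (Y ^ 2 - 32768) := by
        apply mul_nonneg (by positivity)
        nlinarith
      nlinarith
    nlinarith [mul_le_mul_of_nonneg_left h1 hN3.le]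
  have hpos : 0 ≤ (N : ℝ) ^ 3 / Y ^ 2 := by positivity
  have hfin : (512 * (N : ℝ) ^ 3 / Y ^ 3 + 4 * N) * F₀ + 64 * (N : ℝ) ^ 3 * (128 / Y ^ 4) * F₀ ≤
      F₀ * ((N : ℝ) ^ 3 / Y ^ 2) := by
    rw [← add_mul, mul_comm F₀]
    apply mul_le_mul_of_nonneg_right _ hF0
    linarith
  linarith

end Pool.Agent.CH
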